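import Pool.Agent.N85.WM.Stm

/-!
# The complements of the base group in the wreath product `G ≀ C_p`
-/

set_option autoImplicit false

open scoped Classical

noncomputable section

namespace Pool.Agent.N20.KRM

open Pool.Agent.N85.WM (Wr Base shiftHom)
open SemidirectProduct

variable {p : ℕ} {G : Type} [Group G]

/-- the generator -/
def t0 (p : ℕ) : Multiplicative (ZMod p) := Multiplicative.ofAdd 1

theorem t0_pow (k : ℕ) : (t0 p) ^ k = Multiplicative.ofAdd (k : ZMod p) := by
  unfold t0
  rw [← ofAdd_nsmul, nsmul_one]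

theorem t0_zpow (k : ℤ) : (t0 p) ^ k = Multiplicative.ofAdd (k : ZMod p) := by
  unfold t0
  rw [← ofAdd_zsmul, zsmul_one]

theorem shift_apply (t : Multiplicative (ZMod p)) (x : ZMod p → G) (i : ZMod p) :
    shiftHom p G t x i = x (i - t.toAdd) := rfl

theorem mem_Base {x : Wr p G} : x ∈ Base p G ↔ x.right = 1 := by
  constructor
  · rintro ⟨u, rfl⟩
    rfl
  · intro h
    refine ⟨x.left, ?_⟩
    ext
    · rfl
    · exact h.symm

instance base_normal : (Base p G).Normal := by
  refine ⟨fun n hn g => ?_⟩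
  rw [mem_Base] at hn ⊢
  rw [mul_right, mul_right, hn, mul_one, inv_right, mul_inv_cancel]

theorem base_index [NeZero p] : (Base p G).index = p := by
  have h1 : Base p G = (rightHom : Wr p G →* Multiplicative (ZMod p)).ker := by
    ext x
    rw [mem_Base, MonoidHom.mem_ker]
    rfl
  rw [h1, Subgroup.index_ker, MonoidHom.range_eq_top.2 rightHom_surjective, Subgroup.card_top]
  rw [Nat.card_congr Multiplicative.toAdd, Nat.card_eq_fintype_card, ZMod.card]

/-- the base group -/
def baseEquiv (p : ℕ) (G : Type) [Group G] : (ZMod p → G) ≃* Base p G :=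
  MonoidHom.ofInjective inl_injective

/-- the conjugates of the generator of the top group -/
def y (u : ZMod p → G) : Wr p G := inl u * inr (t0 p) * (inl u)⁻¹

theorem y_right (u : ZMod p → G) : (y u).right = t0 p := by
  unfold y
  rw [mul_right, mul_right, inv_right, right_inl, right_inr, one_mul, inv_one, mul_one]

theorem y_left (u : ZMod p → G) (i : ZMod p) : (y u).left i = u i * (u (i - 1))⁻¹ := by
  unfold y
  rw [← map_inv]
  simp only [mul_left, mul_right, left_inl, right_inl, map_one, left_inr, mul_one, right_inr,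
    one_mul, MulAut.one_apply]
  rfl

theorem y_pow_right (u : ZMod p → G) (k : ℤ) : (y u ^ k).right = (t0 p) ^ k := by
  have h : (rightHom : Wr p G →* _) (y u ^ k) = (rightHom (y u)) ^ k := map_zpow _ _ _
  change (y u ^ k).right = (y u).right ^ k at h
  rw [h, y_right]

theorem y_zpow (u : ZMod p → G) (k : ℤ) : y u ^ k = inl u * inr ((t0 p) ^ k) * (inl u)⁻¹ := by
  unfold y
  rw [conj_zpow, ← map_zpow]

theorem y_pow_p (u : ZMod p → G) : y u ^ p = 1 := by
  have h := y_zpow u (p : ℤ)
  rw [zpow_natCast, zpow_natCast, t0_pow, ZMod.natCast_self, ofAdd_zero, map_one, mul_one,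
    mul_inv_cancel] at h
  exact h

/-- commuting with the generator -/
theorem comm_iff (u v : ZMod p → G) : Commute (inl v : Wr p G) (y u) ↔
    ∀ i, ((u⁻¹ * v * u) : ZMod p → G) i = (u⁻¹ * v * u : ZMod p → G) (i - 1) := by
  have h1 : Commute (inl v : Wr p G) (y u) ↔
      inl (u⁻¹ * v * u) * inr (t0 p) = (inr (t0 p) * inl (u⁻¹ * v * u) : Wr p G) := by
    unfold y Commute SemiconjBy
    rw [map_mul, map_mul, map_inv]
    constructor
    · intro h
      have := congrArg (fun z : Wr p G => (inl u)⁻¹ * z * inl u) h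
      simp only [mul_assoc] at this ⊢
      simpa using this
    · intro h
      have := congrArg (fun z : Wr p G => inl u * z * (inl u)⁻¹) h
      simp only [mul_assoc] at this ⊢
      simpa using this
  rw [h1, SemidirectProduct.ext_iff]
  simp only [mul_left, mul_right, left_inl, right_inl, left_inr, right_inr, map_one, mul_one,
    one_mul, and_true]
  exact funext_iff

theorem const_of_shift {G : Type} [NeZero p] {w : ZMod p → G} (h : ∀ i, w i = w (i - 1)) (i : ZMod p) :
    w i = w 0 := by
  have h1 : ∀ k : ℕ, w (k : ZMod p) = w 0 := by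
    intro k
    induction k with
    | zero => rw [Nat.cast_zero]
    | succ k ih => rw [h, Nat.cast_succ, add_sub_cancel_right, ih]
  have h2 := h1 i.val
  rwa [ZMod.natCast_zmod_val] at h2

/-- the complements -/
def Cp (p : ℕ) (G : Type) [Group G] (R : Subgroup (Wr p G)) : Prop :=
  IsPGroup p R ∧ Base p G ⊔ R = ⊤ ∧ Base p G ⊓ R = ⊥

theorem mem_z (u : ZMod p → G) (z : Wr p G) : z ∈ Subgroup.zpowers (y u) ↔ ∃ k : ℤ, y u ^ k = z :=
  Subgroup.mem_zpowers_iff

theorem cp_y [hp : Fact p.Prime] (u : ZMod p → G) : Cp p G (Subgroup.zpowers (y u)) := by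
  refine ⟨?_, ?_, ?_⟩
  · rintro ⟨z, hz⟩
    obtain ⟨k, rfl⟩ := (mem_z u z).1 hz
    refine ⟨1, Subtype.ext ?_⟩
    show (y u ^ k) ^ (p ^ 1) = 1
    rw [pow_one, ← zpow_natCast, ← zpow_mul, mul_comm, zpow_mul, zpow_natCast, y_pow_p, one_zpow]
  · rw [eq_top_iff]
    intro z _
    have h1 : ∃ k : ℤ, (t0 p) ^ k = z.right := by
      refine ⟨(z.right.toAdd.val : ℤ), ?_⟩
      rw [t0_zpow, Int.cast_natCast, ZMod.natCast_zmod_val]
      rfl
    obtain ⟨k, hk⟩ := h1
    have h2 : z = (z * (y u ^ k)⁻¹) * y u ^ k := by group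
    rw [h2]
    refine Subgroup.mul_mem_sup ?_ ⟨k, rfl⟩
    rw [mem_Base, mul_right, inv_right, y_pow_right, hk, mul_inv_cancel]
  · rw [eq_bot_iff]
    rintro z ⟨hz1, hz2⟩
    obtain ⟨k, rfl⟩ := (mem_z u z).1 hz2
    rw [Subgroup.mem_bot]
    have h1 : (y u ^ k).right = 1 := mem_Base.1 hz1
    rw [y_pow_right] at h1
    rw [y_zpow, h1, map_one, mul_one, mul_inv_cancel]

theorem y_eq_of_z [hp : Fact p.Prime] {u v : ZMod p → G}
    (h : Subgroup.zpowers (y u) = Subgroup.zpowers (y v)) : y u = y v := by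
  have h1 : y u ∈ Subgroup.zpowers (y v) := by rw [← h]; exact Subgroup.mem_zpowers _
  obtain ⟨k, hk⟩ := (mem_z v _).1 h1
  have h2 := congrArg SemidirectProduct.right hk
  rw [y_pow_right, y_right] at h2
  rw [← hk, y_zpow, h2]
  rfl

theorem y_eq_iff [hp : Fact p.Prime] {u v : ZMod p → G} : y u = y v ↔
    ∀ i, (v⁻¹ * u) i = (v⁻¹ * u) 0 := by
  have h0 : y u = y v ↔ ∀ i, (v⁻¹ * u) i = (v⁻¹ * u) (i - 1) := by
    constructor
    · intro h i
      have h1 := congrFun (congrArg SemidirectProduct.left h) i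
      rw [y_left, y_left] at h1
      show (v i)⁻¹ * u i = (v (i - 1))⁻¹ * u (i - 1)
      have h2 : u i = v i * (v (i - 1))⁻¹ * u (i - 1) := by
        rw [← h1]; group
      rw [h2]; group
    · intro h
      ext i
      · rw [y_left, y_left]
        have h1 : (v i)⁻¹ * u i = (v (i - 1))⁻¹ * u (i - 1) := h i
        have h2 : u i = v i * ((v (i - 1))⁻¹ * u (i - 1)) := by
          rw [← h1]; group
        rw [h2]; group
      · rw [y_right, y_right]
  rw [h0]
  constructor
  · intro h i
    exact const_of_shift h i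
  · intro h i
    rw [h i, h (i - 1)]

/-- every complement is generated by a conjugate -/
theorem cp_ex [hp : Fact p.Prime] {R : Subgroup (Wr p G)} (hR : Cp p G R) :
    ∃ u : ZMod p → G, Subgroup.zpowers (y u) = R := by
  obtain ⟨-, hR2, hR3⟩ := hR
  -- an element over the generator
  have h1 : (inr (t0 p) : Wr p G) ∈ Base p G ⊔ R := by rw [hR2]; trivial
  rw [Subgroup.mem_sup_of_normal_left] at h1
  obtain ⟨n, hn, r, hr, hnr⟩ := h1
  have hrr : r.right = t0 p := by
    have h2 := congrArg SemidirectProduct.right hnr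
    rw [mul_right, mem_Base.1 hn, one_mul, right_inr] at h2
    exact h2
  have hbot : ∀ z, z ∈ R → z.right = 1 → z = 1 := by
    intro z hz hz1
    have h2 : z ∈ Base p G ⊓ R := ⟨mem_Base.2 hz1, hz⟩
    rw [hR3] at h2
    exact Subgroup.mem_bot.1 h2
  have hpr : ∀ k : ℕ, (r ^ k).right = (t0 p) ^ k := by
    intro k
    have h : (rightHom : Wr p G →* _) (r ^ k) = (rightHom r) ^ k := map_pow _ _ _
    change (r ^ k).right = r.right ^ k at h
    rw [h, hrr]
  have hzr : ∀ k : ℤ, (r ^ k).right = (t0 p) ^ k := by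
    intro k
    have h : (rightHom : Wr p G →* _) (r ^ k) = (rightHom r) ^ k := map_zpow _ _ _
    change (r ^ k).right = r.right ^ k at h
    rw [h, hrr]
  have hrp : r ^ p = 1 := hbot _ (R.pow_mem hr p) (by
    rw [hpr, t0_pow, ZMod.natCast_self, ofAdd_zero])
  -- the recursion
  have hrec : ∀ (k : ℕ) (i : ZMod p), (r ^ (k + 1)).left i = r.left i * (r ^ k).left (i - 1) := by
    intro k i
    rw [pow_succ', mul_left, hrr]
    rfl
  set u : ZMod p → G := fun i => (r ^ i.val).left i with hu
  have hstep : ∀ i : ZMod p, u i = r.left i * u (i - 1) := by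
    intro i
    by_cases hi : i = 0
    · subst hi
      have e1 : (0 - 1 : ZMod p).val = p - 1 := by
        obtain ⟨n, hn⟩ : ∃ n, p = n + 1 := ⟨p - 1, by have := hp.out.pos; omega⟩
        subst hn
        rw [zero_sub, ZMod.val_neg_one]
        omega
      have e2 : u 0 = 1 := by
        show (r ^ (0 : ZMod p).val).left 0 = 1
        rw [ZMod.val_zero, pow_zero]
        rfl
      have e3 : r.left 0 * u (0 - 1) = (r ^ p).left 0 := by
        show r.left 0 * (r ^ (0 - 1 : ZMod p).val).left (0 - 1) = _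
        rw [e1, ← hrec, Nat.sub_add_cancel hp.out.one_le]
      rw [e2, e3, hrp]
      rfl
    · have e1 : i.val = (i - 1).val + 1 := by
        have h2 : ((i - 1).val + 1) < p := by
          by_contra hcon
          have h3 : (i - 1).val < p := ZMod.val_lt _
          have h4 : (i - 1).val + 1 = p := by omega
          apply hi
          have h5 : i = (((i - 1).val + 1 : ℕ) : ZMod p) := by
            rw [Nat.cast_add, ZMod.natCast_zmod_val, Nat.cast_one, sub_add_cancel]
          rw [h5, h4, ZMod.natCast_self]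
        have h5 : i = (((i - 1).val + 1 : ℕ) : ZMod p) := by
          rw [Nat.cast_add, ZMod.natCast_zmod_val, Nat.cast_one, sub_add_cancel]
        conv_lhs => rw [h5]
        rw [ZMod.val_natCast_of_lt h2]
      show (r ^ i.val).left i = r.left i * (r ^ (i - 1).val).left (i - 1)
      rw [e1, hrec]
  have hyr : y u = r := by
    ext i
    · rw [y_left, hstep i]
      group
    · rw [y_right, hrr]
  refine ⟨u, ?_⟩
  rw [hyr]
  apply le_antisymm
  · rw [Subgroup.zpowers_le]
    exact hr
  · intro s hs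
    refine Subgroup.mem_zpowers_iff.2 ⟨(s.right.toAdd.val : ℤ), ?_⟩
    have h2 : s * (r ^ (s.right.toAdd.val : ℤ))⁻¹ = 1 := by
      refine hbot _ (R.mul_mem hs (R.inv_mem (R.zpow_mem hr _))) ?_
      rw [mul_right, inv_right, hzr, t0_zpow, Int.cast_natCast, ZMod.natCast_zmod_val]
      exact mul_inv_cancel _
    exact (mul_inv_eq_one.1 h2).symm

/-- the number of the complements -/
theorem card_cp [hp : Fact p.Prime] [Finite G] :
    Nat.card {R : Subgroup (Wr p G) // Cp p G R} * Nat.card G = Nat.card (ZMod p → G) := by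
  rw [← Nat.card_prod]
  symm
  refine Nat.card_congr (Equiv.ofBijective
    (fun u => (⟨Subgroup.zpowers (y u), cp_y u⟩, u 0)) ⟨?_, ?_⟩)
  · intro u v h
    have h1 := congrArg Subtype.val (congrArg Prod.fst h)
    have h2 : u 0 = v 0 := congrArg Prod.snd h
    have h3 := y_eq_iff.1 (y_eq_of_z h1)
    funext i
    have h4 : (v i)⁻¹ * u i = (v 0)⁻¹ * u 0 := h3 i
    rw [h2, inv_mul_cancel] at h4
    exact (inv_mul_eq_one.1 h4).symm
  · rintro ⟨⟨R, hR⟩, g⟩
    obtain ⟨v, hv⟩ := cp_ex hR
    refine ⟨v * fun _ => (v 0)⁻¹ * g, ?_⟩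
    apply Prod.ext
    · apply Subtype.ext
      show Subgroup.zpowers (y (v * fun _ => (v 0)⁻¹ * g)) = R
      rw [← hv]
      congr 1
      rw [y_eq_iff]
      intro i
      rw [inv_mul_cancel_left]
    · show v 0 * ((v 0)⁻¹ * g) = g
      rw [mul_inv_cancel_left]

/-- the centraliser of a complement in the base group -/
theorem cent_cp [hp : Fact p.Prime] {R : Subgroup (Wr p G)} (hR : Cp p G R) :
    Nonempty (G ≃* ↥(Base p G ⊓ Subgroup.centralizer (R : Set (Wr p G)))) := by
  obtain ⟨u, rfl⟩ := cp_ex hR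
  have hmem : ∀ v : ZMod p → G, (inl v : Wr p G) ∈
      Base p G ⊓ Subgroup.centralizer (Subgroup.zpowers (y u) : Set (Wr p G)) ↔
      ∀ i, (u⁻¹ * v * u : ZMod p → G) i = (u⁻¹ * v * u : ZMod p → G) (i - 1) := by
    intro v
    rw [← comm_iff, Subgroup.mem_inf, Subgroup.mem_centralizer_iff]
    constructor
    · rintro ⟨-, h⟩
      exact (h _ (Subgroup.mem_zpowers _)).symm
    · intro h
      refine ⟨mem_Base.2 rfl, fun z hz => ?_⟩
      obtain ⟨k, rfl⟩ := (mem_z u z).1 hz
      exact (h.zpow_right k).eq.symm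
  let f : G →* ↥(Base p G ⊓ Subgroup.centralizer
      (Subgroup.zpowers (y u) : Set (Wr p G))) :=
    { toFun := fun g => ⟨inl (u * (fun _ => g) * u⁻¹), (hmem _).2 fun i => by
        simp [mul_assoc]⟩
      map_one' := by
        apply Subtype.ext
        show (inl (u * (fun _ => (1 : G)) * u⁻¹) : Wr p G) = 1
        have : (u * (fun _ => (1 : G)) * u⁻¹) = 1 := by
          funext i
          simp
        rw [this, map_one]
      map_mul' := fun g h => by
        apply Subtype.ext
        show (inl (u * (fun _ => g * h) * u⁻¹) : Wr p G) =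
          inl (u * (fun _ => g) * u⁻¹) * inl (u * (fun _ => h) * u⁻¹)
        rw [← map_mul]
        congr 1
        funext i
        simp [mul_assoc] }
  refine ⟨MulEquiv.ofBijective f ⟨?_, ?_⟩⟩
  · intro g h hgh
    have h1 := inl_injective (congrArg Subtype.val hgh)
    have h2 := congrFun h1 0
    have h3 : u 0 * g * (u 0)⁻¹ = u 0 * h * (u 0)⁻¹ := h2
    exact mul_left_cancel (mul_right_cancel h3)
  · rintro ⟨z, hz⟩
    obtain ⟨v, rfl⟩ := (Subgroup.mem_inf.1 hz).1
    have h1 := (hmem v).1 hz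
    refine ⟨(u⁻¹ * v * u : ZMod p → G) 0, ?_⟩
    apply Subtype.ext
    show (inl (u * (fun _ => (u⁻¹ * v * u : ZMod p → G) 0) * u⁻¹) : Wr p G) = inl v
    congr 1
    funext i
    have h2 := const_of_shift h1 i
    show u i * (u⁻¹ * v * u : ZMod p → G) 0 * (u i)⁻¹ = v i
    rw [← h2]
    show u i * ((u i)⁻¹ * v i * u i) * (u i)⁻¹ = v i
    group

end Pool.Agent.N20.KRM
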