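import Pool.Agent.R674.Ce.Dz
import Pool.Agent.R674.Ce.Fin
import Pool.Agent.Q99.AS.Chain
import Pool.Agent.Q99.AS.Char
import Pool.Agent.Q99.AS.Dade

/-!
# Products: the alternating sum of the class numbers and the number of characters of defect zero
-/

set_option autoImplicit false

open scoped Classical

noncomputable section

namespace Pool.Agent.N20.KRM

open Pool.Agent.Y63.KR Pool.Agent.Q99.AS
open Pool.Agent.Y63.AWC (IsIrreducibleCharacter numDefectZero numDefectZero_congr)
open Pool.Agent.R674.Ce
open Pool.Agent.Helper884.IC (IsIrrChar)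

/-- the alternating sum of the class numbers of the stabilisers of the chains -/
def aK (p : ℕ) (G : Type) [Group G] : ℤ :=
  alternatingSum p G (fun H => (Nat.card (ConjClasses H) : ℤ))

theorem AK_aK (p : ℕ) (G : Type) [Group G] : AK p G = (Nat.card G : ℤ) * aK p G := rfl

theorem aK_congr {p : ℕ} {G H : Type} [Group G] [Finite G] [Group H] [Finite H] (e : G ≃* H) :
    aK p G = aK p H := by
  have h := AK_congr (p := p) e
  rw [AK_aK, AK_aK, Nat.card_congr e.toEquiv] at h
  exact mul_left_cancel₀ (by exact_mod_cast Nat.card_pos.ne') h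

theorem isCh_bot {G : Type} [Group G] {p : ℕ} (σ : Set (Subgroup G)) :
    IsCh p (⊥ : Subgroup G) σ ↔ IsPChain p σ := by
  constructor
  · intro h
    exact ⟨h.chain, h.isPGroup, fun P hP => (h.lt P hP).ne'⟩
  · intro h
    exact ⟨h.chain, h.isPGroup, fun P hP => bot_lt_iff_ne_bot.2 (h.ne_bot P hP)⟩

theorem conjInv_of_iso {G : Type} [Group G] {f : Subgroup G → ℤ} (hf : IsoInv f) : ConjInv f := by
  intro g H
  symm
  exact hf _ _ ⟨Subgroup.equivMapOfInjective H _ (MulAut.conj g).injective⟩

theorem alt_eq {G : Type} [Group G] [Finite G] {p : ℕ} [Fact p.Prime] {f : Subgroup G → ℤ}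
    (hf : IsoInv f) : alternatingSum p G f = altSum p (⊥ : Subgroup G) f := by
  have _i1 : Fintype {σ : Set (Subgroup G) // IsPChain p σ} := Fintype.ofFinite _
  have _i2 : Fintype {σ : Set (Subgroup G) // IsCh p (⊥ : Subgroup G) σ} := Fintype.ofFinite _
  have h1 := card_mul_alternatingSum (p := p) f hf
  have h2 := card_mul_altSum (p := p) (O := (⊥ : Subgroup G)) inferInstance f (conjInv_of_iso hf)
  have h3 : (∑ σ : {σ : Set (Subgroup G) // IsPChain p σ},
      (-1) ^ σ.1.ncard * ((Nat.card (chainStabilizer σ.1) : ℤ) * f (chainStabilizer σ.1))) =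
      ∑ σ : {σ : Set (Subgroup G) // IsCh p (⊥ : Subgroup G) σ},
      (-1) ^ σ.1.ncard * ((Nat.card (chainStabilizer σ.1) : ℤ) * f (chainStabilizer σ.1)) :=
    Fintype.sum_equiv (Equiv.subtypeEquivRight fun σ => (isCh_bot σ).symm) _ _ fun σ => rfl
  rw [h3, ← h2] at h1
  exact mul_left_cancel₀ (by exact_mod_cast Nat.card_pos.ne') h1

theorem classes_prod (A B : Type) [Group A] [Group B] [Finite A] [Finite B] :
    Nat.card (ConjClasses (A × B)) = Nat.card (ConjClasses A) * Nat.card (ConjClasses B) := by
  have h1 := card_comm_eq_card_conjClasses_mul_card A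
  have h2 := card_comm_eq_card_conjClasses_mul_card B
  have h3 := card_comm_eq_card_conjClasses_mul_card (A × B)
  have h4 : Nat.card {q : (A × B) × (A × B) // Commute q.1 q.2} =
      Nat.card {q : A × A // Commute q.1 q.2} * Nat.card {q : B × B // Commute q.1 q.2} := by
    rw [← Nat.card_prod]
    refine Nat.card_congr
      { toFun := fun q => (⟨(q.1.1.1, q.1.2.1), congrArg Prod.fst q.2⟩,
          ⟨(q.1.1.2, q.1.2.2), congrArg Prod.snd q.2⟩)
        invFun := fun q => ⟨((q.1.1.1, q.2.1.1), (q.1.1.2, q.2.1.2)), Prod.ext q.1.2 q.2.2⟩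
        left_inv := fun q => rfl
        right_inv := fun q => rfl }
  rw [h4, h1, h2, Nat.card_prod] at h3
  have hA : 0 < Nat.card A * Nat.card B := Nat.mul_pos Nat.card_pos Nat.card_pos
  refine Nat.eq_of_mul_eq_mul_right hA ?_
  rw [← h3]
  ring

theorem isoInv_k {G : Type} [Group G] :
    IsoInv (fun H : Subgroup G => (Nat.card (ConjClasses H) : ℤ)) := by
  rintro H K ⟨e⟩
  have : Nat.card (ConjClasses H) = Nat.card (ConjClasses K) := by
    refine Nat.card_congr
      { toFun := ConjClasses.map e.toMonoidHom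
        invFun := ConjClasses.map e.symm.toMonoidHom
        left_inv := fun C => ?_
        right_inv := fun C => ?_ }
    · obtain ⟨x, rfl⟩ := ConjClasses.mk_surjective C
      exact congrArg ConjClasses.mk (e.symm_apply_apply x)
    · obtain ⟨x, rfl⟩ := ConjClasses.mk_surjective C
      exact congrArg ConjClasses.mk (e.apply_symm_apply x)
  show (Nat.card (ConjClasses H) : ℤ) = Nat.card (ConjClasses K)
  rw [this]

theorem k_equiv {G H : Type} [Group G] [Group H] (e : G ≃* H) :
    Nat.card (ConjClasses G) = Nat.card (ConjClasses H) := by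
  refine Nat.card_congr
    { toFun := ConjClasses.map e.toMonoidHom
      invFun := ConjClasses.map e.symm.toMonoidHom
      left_inv := fun C => ?_
      right_inv := fun C => ?_ }
  · obtain ⟨x, rfl⟩ := ConjClasses.mk_surjective C
    exact congrArg ConjClasses.mk (e.symm_apply_apply x)
  · obtain ⟨x, rfl⟩ := ConjClasses.mk_surjective C
    exact congrArg ConjClasses.mk (e.apply_symm_apply x)

/-- **the alternating sum is multiplicative** -/
theorem aK_prod {p : ℕ} [Fact p.Prime] (A B : Type) [Group A] [Group B] [Finite A] [Finite B] :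
    aK p (A × B) = aK p A * aK p B := by
  unfold aK
  rw [alt_eq isoInv_k, alt_eq isoInv_k, alt_eq isoInv_k]
  have h := altSum_prod (p := p) (O₁ := (⊥ : Subgroup A)) (O₂ := (⊥ : Subgroup B))
    IsPGroup.of_bot IsPGroup.of_bot inferInstance inferInstance (Finset.univ : Finset Unit)
    (fun H => (Nat.card (ConjClasses H) : ℤ)) (fun _ H => (Nat.card (ConjClasses H) : ℤ))
    (fun _ H => (Nat.card (ConjClasses H) : ℤ)) (conjInv_of_iso isoInv_k)
    (fun _ => conjInv_of_iso isoInv_k) (fun _ => conjInv_of_iso isoInv_k) (by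
      intro H K
      rw [Finset.univ_unique, Finset.sum_singleton, k_equiv (Subgroup.prodEquiv H K),
        classes_prod, Nat.cast_mul])
  rw [Finset.univ_unique, Finset.sum_singleton] at h
  rw [← h]
  congr 1
  exact (Subgroup.bot_prod_bot).symm

theorem z_eq (p : ℕ) (A : Type) [Group A] :
    numDefectZero p A = Nat.card {χ : A → ℂ // IsIrrChar χ ∧ Dft p 0 χ} := by
  unfold numDefectZero
  refine Nat.card_congr (Equiv.subtypeEquivRight fun χ => ?_)
  unfold Dft
  simp only [add_zero]
  rfl

/-- **the number of characters of defect zero is multiplicative** -/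
theorem z_prod {p : ℕ} [hp : Fact p.Prime] (A B : Type) [Group A] [Group B] [Finite A] [Finite B] :
    numDefectZero p (A × B) = numDefectZero p A * numDefectZero p B := by
  have _i1 : Fintype A := Fintype.ofFinite A
  have _i2 : Fintype B := Fintype.ofFinite B
  rw [z_eq, z_eq, z_eq]
  have h := card_prod (Finset.univ : Finset Unit) (fun χ : A × B → ℂ => Dft p 0 χ)
    (fun _ θ => Dft p 0 θ) (fun _ ψ => Dft p 0 ψ) (by
      intro θ ψ hθ hψ
      rw [Dft_ten hθ hψ]
      constructor
      · rintro ⟨⟨i, j⟩, hi, h1, h2⟩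
        rw [Finset.HasAntidiagonal.mem_antidiagonal] at hi
        have h3 : i = 0 := by have : i + j = 0 := hi; omega
        have h4 : j = 0 := by have : i + j = 0 := hi; omega
        subst h3 h4
        exact ⟨(), Finset.mem_univ _, h1, h2⟩
      · rintro ⟨_, _, h1, h2⟩
        exact ⟨(0, 0), by simp, h1, h2⟩)
    (fun _ _ _ _ _ _ _ _ _ _ => rfl)
  rw [h, Finset.univ_unique, Finset.sum_singleton]

theorem aK_pi {p : ℕ} [Fact p.Prime] (A : Type) [Group A] [Finite A] (n : ℕ) :
    aK p (Fin (n + 1) → A) = aK p A ^ (n + 1) := by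
  induction n with
  | zero =>
    rw [zero_add, pow_one]
    exact aK_congr (MulEquiv.piUnique (fun _ : Fin 1 => A))
  | succ n ih =>
    rw [pow_succ', ← ih, ← aK_prod]
    exact aK_congr (p := p)
      { toFun := fun x => (x 0, fun i => x i.succ)
        invFun := fun y => Fin.cons y.1 y.2
        left_inv := fun x => by
          funext i
          refine Fin.cases ?_ (fun j => ?_) i
          · rfl
          · rfl
        right_inv := fun y => rfl
        map_mul' := fun x y => rfl }

theorem z_pi {p : ℕ} [Fact p.Prime] (A : Type) [Group A] [Finite A] (n : ℕ) :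
    numDefectZero p (Fin (n + 1) → A) = numDefectZero p A ^ (n + 1) := by
  induction n with
  | zero =>
    rw [zero_add, pow_one]
    exact numDefectZero_congr (MulEquiv.piUnique (fun _ : Fin 1 => A))
  | succ n ih =>
    rw [pow_succ', ← ih, ← z_prod]
    exact numDefectZero_congr (p := p)
      { toFun := fun x => (x 0, fun i => x i.succ)
        invFun := fun y => Fin.cons y.1 y.2
        left_inv := fun x => by
          funext i
          refine Fin.cases ?_ (fun j => ?_) i
          · rfl
          · rfl
        right_inv := fun y => rfl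
        map_mul' := fun x y => rfl }

/-- powers over an index type with `p` elements -/
theorem aK_zmod {p : ℕ} [hp : Fact p.Prime] (A : Type) [Group A] [Finite A] :
    aK p (ZMod p → A) = aK p A ^ p := by
  obtain ⟨n, hn⟩ : ∃ n, p = n + 1 := ⟨p - 1, by have := hp.out.pos; omega⟩
  have h := aK_pi (p := p) A n
  rw [← hn] at h
  rw [← h]
  exact aK_congr (MulEquiv.arrowCongr (ZMod.finEquiv p).symm.toEquiv (MulEquiv.refl A))

theorem z_zmod {p : ℕ} [hp : Fact p.Prime] (A : Type) [Group A] [Finite A] :
    numDefectZero p (ZMod p → A) = numDefectZero p A ^ p := by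
  obtain ⟨n, hn⟩ : ∃ n, p = n + 1 := ⟨p - 1, by have := hp.out.pos; omega⟩
  have h := z_pi (p := p) A n
  rw [← hn] at h
  rw [← h]
  exact numDefectZero_congr (MulEquiv.arrowCongr (ZMod.finEquiv p).symm.toEquiv (MulEquiv.refl A))

end Pool.Agent.N20.KRM
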