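import Mathlib

/-!
# Sequences with `p a (n + 1) = a n ^ p - a n`
-/

set_option autoImplicit false

namespace Pool.Agent.N20.KRM

/-- `p` times the difference quotient of `x ↦ x ^ p` -/
theorem pow_lift {p : ℕ} (hp : p ≠ 0) {x y : ℤ} {m : ℕ} (hm : m ≠ 0)
    (h : (p : ℤ) ^ m ∣ x - y) : (p : ℤ) ^ (m + 1) ∣ x ^ p - y ^ p := by
  have h1 : (p : ℤ) ∣ x - y := (dvd_pow_self _ hm).trans h
  have h2 := (dvd_geom_sum₂_iff_of_dvd_sub (n := p) h1).2 ⟨y ^ (p - 1), rfl⟩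
  rw [← (Commute.all x y).geom_sum₂_mul, pow_succ', mul_comm (∑ i ∈ _, _) (x - y)]
  rw [mul_comm (p : ℤ)]
  exact mul_dvd_mul h h2

theorem next {p : ℕ} (hp : p ≠ 0) {a a' z z' : ℤ} (ha : p * a' = a ^ p - a)
    (hz : p * z' = z ^ p - z) {m : ℕ} : (p : ℤ) ^ (m + 1) ∣ a - z ↔
      (p : ℤ) ∣ a - z ∧ (p : ℤ) ^ m ∣ a' - z' := by
  have hp' : (p : ℤ) ≠ 0 := by exact_mod_cast hp
  have h0 : (p : ℤ) * (a' - z') = (a ^ p - z ^ p) - (a - z) := by
    rw [mul_sub, ha, hz]; ring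
  constructor
  · intro h
    refine ⟨(dvd_pow_self _ (Nat.succ_ne_zero m)).trans h, ?_⟩
    have h1 : (p : ℤ) ^ (m + 1) ∣ (a ^ p - z ^ p) - (a - z) := by
      refine dvd_sub ?_ h
      exact (pow_dvd_pow _ (Nat.le_succ _)).trans (pow_lift hp (Nat.succ_ne_zero m) h)
    rw [← h0, pow_succ'] at h1
    exact (mul_dvd_mul_iff_left hp').1 h1
  · rintro ⟨h1, h2⟩
    -- raise the exponent step by step
    have key : ∀ k : ℕ, k ≤ m → (p : ℤ) ^ (k + 1) ∣ a - z := by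
      intro k
      induction k with
      | zero => intro _; rwa [zero_add, pow_one]
      | succ k ih =>
        intro hk
        have h3 := pow_lift hp (Nat.succ_ne_zero k) (ih (by omega))
        have h4 : (p : ℤ) ^ (k + 1 + 1) ∣ (p : ℤ) * (a' - z') := by
          rw [pow_succ']
          exact mul_dvd_mul_left _ ((pow_dvd_pow _ hk).trans h2)
        rw [h0] at h4
        have h5 := dvd_sub h3 h4
        rwa [sub_sub_cancel] at h5
    exact key m le_rfl

/-- **Congruences modulo powers of `p`.** -/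
theorem dvd_iff {p : ℕ} (hp : p ≠ 0) (m : ℕ) : ∀ (a z : ℕ → ℤ),
    (∀ n, p * a (n + 1) = a n ^ p - a n) → (∀ n, p * z (n + 1) = z n ^ p - z n) →
    ((p : ℤ) ^ m ∣ a 0 - z 0 ↔ ∀ n < m, (p : ℤ) ∣ a n - z n) := by
  induction m with
  | zero => intro a z _ _; simp
  | succ m ih =>
    intro a z ha hz
    rw [next hp (ha 0) (hz 0), ih (fun n => a (n + 1)) (fun n => z (n + 1)) (fun n => ha (n + 1))
      (fun n => hz (n + 1))]
    constructor
    · rintro ⟨h1, h2⟩ n hn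
      rcases n with _ | n
      · exact h1
      · exact h2 n (by omega)
    · intro h
      exact ⟨h 0 (by omega), fun n hn => h (n + 1) (by omega)⟩

theorem eq_iff {p : ℕ} (hp : 2 ≤ p) (a z : ℕ → ℤ)
    (ha : ∀ n, p * a (n + 1) = a n ^ p - a n) (hz : ∀ n, p * z (n + 1) = z n ^ p - z n) :
    a 0 = z 0 ↔ ∀ n, (p : ℤ) ∣ a n - z n := by
  constructor
  · intro h n
    have h1 := (dvd_iff (by omega) (n + 1) a z ha hz).1 (by rw [h, sub_self]; exact dvd_zero _)
    exact h1 n (by omega)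
  · intro h
    by_contra hne
    have h1 : a 0 - z 0 ≠ 0 := sub_ne_zero.2 hne
    have h2 : ∀ m : ℕ, (p : ℤ) ^ m ∣ a 0 - z 0 := fun m =>
      (dvd_iff (by omega) m a z ha hz).2 fun n _ => h n
    have h3 := Int.natAbs_dvd_natAbs.2 (h2 (a 0 - z 0).natAbs)
    rw [Int.natAbs_pow, Int.natAbs_natCast] at h3
    have h4 := Nat.le_of_dvd (Int.natAbs_pos.2 h1) h3
    exact absurd h4 (not_le.2 (Nat.lt_pow_self (by omega)))

end Pool.Agent.N20.KRM
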