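import Pool.Agent.N20.KRM.Arith
import Pool.Agent.N20.KRM.Mult
import Pool.Agent.N20.KRM.Compl
import Pool.Agent.N85.WM.Dzt
import Pool.Agent.N85.WM.Van
import Pool.Agent.Y63.KR.Levels

/-!
# The Knörr–Robinson conjecture modulo `p`
-/

set_option autoImplicit false

open scoped Classical

noncomputable section

namespace Pool.Agent.N20.KRM

open Pool.Agent.Y63.KR
open Pool.Agent.Y63.AWC (IsIrreducibleCharacter numDefectZero numDefectZero_congr)
open Pool.Agent.R674.Ce
open Pool.Agent.N85.WM (Wr Base)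
open Pool.Agent.Y63.NV (IsWt centralValue)

section wr

variable {p : ℕ} {G : Type} [Group G]

instance wr_finite [NeZero p] [Finite G] : Finite (Wr p G) :=
  Finite.of_equiv _ (SemidirectProduct.equivProd (N := ZMod p → G)
    (G := Multiplicative (ZMod p))).symm

theorem card_wr [hp : Fact p.Prime] :
    Nat.card (Wr p G) = p * Nat.card (ZMod p → G) := by
  have h := (Base p G).card_mul_index
  rw [base_index, Nat.card_congr (baseEquiv p G).toEquiv.symm] at h
  rw [← h, mul_comm]

variable [hp : Fact p.Prime] [Finite G]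

/-- the sum over the complements -/
theorem sum_cp (d : ∀ (H : Type) [Group H], ℤ)
    (hd : ∀ (H K : Type) [Group H] [Finite H] [Group K] [Finite K], Nonempty (H ≃* K) → d H = d K) :
    (∑ᶠ R : Subgroup (Wr p G), if IsPGroup p R ∧ Base p G ⊔ R = ⊤ ∧ Base p G ⊓ R = ⊥ then
      d ↥(Base p G ⊓ Subgroup.centralizer (R : Set (Wr p G))) else 0) =
      (Nat.card {R : Subgroup (Wr p G) // Cp p G R} : ℤ) * d G := by
  have _i : Fintype (Subgroup (Wr p G)) := Fintype.ofFinite _
  rw [finsum_eq_sum_of_fintype]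
  have h1 : ∀ R : Subgroup (Wr p G), (if IsPGroup p R ∧ Base p G ⊔ R = ⊤ ∧ Base p G ⊓ R = ⊥ then
      d ↥(Base p G ⊓ Subgroup.centralizer (R : Set (Wr p G))) else 0) =
      if Cp p G R then d G else 0 := by
    intro R
    by_cases h : Cp p G R
    · have h' : IsPGroup p R ∧ Base p G ⊔ R = ⊤ ∧ Base p G ⊓ R = ⊥ := h
      rw [if_pos h, if_pos h']
      obtain ⟨e⟩ := cent_cp h
      exact (hd _ _ ⟨e⟩).symm
    · have h' : ¬ (IsPGroup p R ∧ Base p G ⊔ R = ⊤ ∧ Base p G ⊓ R = ⊥) := h
      rw [if_neg h, if_neg h']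
  rw [Finset.sum_congr rfl fun R _ => h1 R, ← Finset.sum_filter, Finset.sum_const, nsmul_eq_mul,
    Nat.card_eq_fintype_card, Fintype.card_subtype]

/-- **the alternating sum of the wreath product** -/
theorem aK_wr : (p : ℤ) * aK p (Wr p G) = aK p G ^ p - aK p G := by
  have h := AK_formula (p := p) (G := Base p G) base_index
  rw [sum_cp (fun H _ => AK p H) (fun H K _ _ _ _ ⟨e⟩ => AK_congr e),
    ← AK_congr (p := p) (baseEquiv p G)] at h
  simp only [AK_aK] at h
  rw [aK_zmod, card_wr, ← mul_assoc] at h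
  have h2 : (Nat.card {R : Subgroup (Wr p G) // Cp p G R} : ℤ) * (Nat.card G : ℤ) =
      (Nat.card (ZMod p → G) : ℤ) := by exact_mod_cast card_cp (p := p) (G := G)
  rw [h2] at h
  have h0 : (Nat.card (ZMod p → G) : ℤ) ≠ 0 := by
    exact_mod_cast (Nat.card_pos (α := ZMod p → G)).ne'
  apply mul_left_cancel₀ h0
  push_cast at h
  linear_combination h

/-- **the number of characters of defect zero of the wreath product** -/
theorem z_wr : (p : ℤ) * (numDefectZero p (Wr p G) : ℤ) =
    (numDefectZero p G : ℤ) ^ p - numDefectZero p G := by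
  have h := DK_formula (p := p) (G := Base p G) base_index
  rw [sum_cp (fun H _ => DK p H) (fun H K _ _ _ _ ⟨e⟩ => DK_congr e),
    ← DK_congr (p := p) (baseEquiv p G)] at h
  simp only [DK] at h
  rw [z_zmod, card_wr, ← mul_assoc] at h
  have h2 : (Nat.card {R : Subgroup (Wr p G) // Cp p G R} : ℤ) * (Nat.card G : ℤ) =
      (Nat.card (ZMod p → G) : ℤ) := by exact_mod_cast card_cp (p := p) (G := G)
  rw [h2] at h
  have h0 : (Nat.card (ZMod p → G) : ℤ) ≠ 0 := by
    exact_mod_cast (Nat.card_pos (α := ZMod p → G)).ne'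
  apply mul_left_cancel₀ h0
  push_cast at h
  linear_combination h

end wr

/-! ### the number of characters of defect zero modulo `p` -/

/-- the sum over the conjugacy classes `C` of `G` of the number of the `p`-elements `u` of `G` such
that `u x` is in `C`, for a representative `x` of `C` -/
def nP (p : ℕ) (G : Type) [Group G] : ℕ :=
  ∑ᶠ C : ConjClasses G, Nat.card {u : G // (∃ k : ℕ, orderOf u = p ^ k) ∧ IsConj (u * C.out) C.out}

theorem z_mod (p : ℕ) [hp : Fact p.Prime] (G : Type) [Group G] [Finite G] :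
    (p : ℤ) ∣ (numDefectZero p G : ℤ) - nP p G := by
  obtain ⟨red⟩ := Pool.Agent.Y63.NV.exists_red p (AlgebraicClosure (ZMod p))
  have _i : Fintype G := Fintype.ofFinite G
  have h := Pool.Agent.N85.WM.Dzt.main Pool.Agent.N85.WM.Van.main p (AlgebraicClosure (ZMod p))
    red G (Pi.single 1 1) (fun g x => Pool.Agent.Y63.NV.B532.single_conj g x)
  have h1 : ∑ᶠ χ : {χ : G → ℂ // IsWt p (⊥ : Subgroup G) χ}, centralValue red χ.1
      (Pi.single 1 1 : G → AlgebraicClosure (ZMod p)) =
      (numDefectZero p G : AlgebraicClosure (ZMod p)) := by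
    have e1 : ∀ χ : {χ : G → ℂ // IsWt p (⊥ : Subgroup G) χ}, centralValue red χ.1
        (Pi.single 1 1 : G → AlgebraicClosure (ZMod p)) = 1 := fun χ =>
      (Pool.Agent.Y930.NV.cvh _ red G χ.1 χ.2.irr).one
    rw [finsum_congr e1]
    have e2 : numDefectZero p G = Nat.card {χ : G → ℂ // IsWt p (⊥ : Subgroup G) χ} := by
      unfold numDefectZero
      refine Nat.card_congr (Equiv.subtypeEquivRight fun χ => ?_)
      rw [Pool.Agent.N85.WM.Dzt.dz_iff]
      rfl
    have _i2 : Finite {χ : G → ℂ // IsWt p (⊥ : Subgroup G) χ} := by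
      refine Finite.of_injective (β := {χ : G → ℂ // χ ∈ Pool.Agent.Helper884.IC.Irr G})
        (fun χ => ⟨χ.1, Pool.Agent.Helper884.IC.mem_Irr.2 χ.2.irr⟩) ?_
      intro χ ψ h
      have h' := congrArg (fun x => x.1) h
      exact Subtype.ext h'
    have _i3 : Fintype {χ : G → ℂ // IsWt p (⊥ : Subgroup G) χ} := Fintype.ofFinite _
    rw [e2, finsum_eq_sum_of_fintype, Finset.sum_const, nsmul_eq_mul, mul_one,
      Nat.card_eq_fintype_card]
    rfl
  rw [h1] at h
  have _i4 : Fintype (ConjClasses G) := Fintype.ofFinite _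
  have h2 : (nP p G : AlgebraicClosure (ZMod p)) = numDefectZero p G := by
    rw [h]
    unfold nP
    rw [finsum_eq_sum_of_fintype, finsum_eq_sum_of_fintype, Nat.cast_sum]
    refine Finset.sum_congr rfl fun C _ => ?_
    rw [finsum_eq_sum_of_fintype, Nat.card_eq_fintype_card, Fintype.card_subtype,
      Finset.card_filter, Nat.cast_sum]
    refine Finset.sum_congr rfl fun u _ => ?_
    rw [finsum_eq_sum_of_fintype, Finset.sum_eq_single (1 : G)]
    · rw [mul_one, Pi.single_eq_same]
      split_ifs <;> simp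
    · intro g _ hg
      rw [Pi.single_eq_of_ne hg]
      split_ifs <;> rfl
    · intro h3
      exact absurd (Finset.mem_univ _) h3
  have h3 : (((numDefectZero p G : ℤ) - nP p G : ℤ) : AlgebraicClosure (ZMod p)) = 0 := by
    push_cast
    rw [h2, sub_self]
  exact (CharP.intCast_eq_zero_iff (AlgebraicClosure (ZMod p)) p _).1 h3

/-! ### iterated wreath products -/

/-- the iterated wreath product `(⋯ ((G ≀ C_p) ≀ C_p) ⋯) ≀ C_p` with `n` factors `C_p` -/
def WrN (p : ℕ) (G : GrpCat.{0}) : ℕ → GrpCat.{0}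
  | 0 => G
  | n + 1 => GrpCat.of (Wr p (WrN p G n))

/-- `k(H) - χ₂(S, H)`, that is, minus the reduced second equivariant Euler characteristic -/
def kr (p : ℕ) (H : Type) [Group H] : ℚ := (Nat.card (ConjClasses H) : ℚ) - chi2 p H

theorem kr_eq (p : ℕ) [Fact p.Prime] (H : Type) [Group H] [Finite H] : kr p H = (aK p H : ℚ) :=
  (altSum_classes (p := p) (G := H)).symm

theorem krc_iff (p : ℕ) [Fact p.Prime] (H : Type) [Group H] [Finite H] :
    KRC p H ↔ aK p H = numDefectZero p H := by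
  have h1 : KRC p H ↔ kr p H = (numDefectZero p H : ℚ) := by
    unfold KRC kr
    constructor
    · intro h; rw [h]; ring
    · intro h; rw [← h]; ring
  rw [h1, kr_eq]
  constructor
  · intro h; exact_mod_cast h
  · intro h; rw [h]; push_cast; rfl

theorem wrN_finite (p : ℕ) [hp : Fact p.Prime] (G : GrpCat.{0}) [Finite G] (n : ℕ) :
    Finite (WrN p G n) := by
  induction n with
  | zero => exact inferInstanceAs (Finite G)
  | succ n ih => exact wr_finite (p := p) (G := WrN p G n)

theorem kr_cong (p : ℕ) [hp : Fact p.Prime] (H : Type) [Group H] [Finite H] :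
    (∃ j : ℤ, kr p H = (nP p H : ℚ) + p * j) ↔ (p : ℤ) ∣ aK p H - numDefectZero p H := by
  have h1 : (p : ℤ) ∣ aK p H - numDefectZero p H ↔ (p : ℤ) ∣ aK p H - nP p H := by
    have h2 := z_mod p H
    have h3 : aK p H - nP p H = (aK p H - numDefectZero p H) + ((numDefectZero p H : ℤ) - nP p H) := by
      ring
    rw [h3]
    exact (dvd_add_left h2).symm
  rw [h1, kr_eq]
  constructor
  · rintro ⟨j, hj⟩
    refine ⟨j, ?_⟩
    have h2 : (aK p H : ℚ) - nP p H = p * j := by rw [hj]; ring
    exact_mod_cast h2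
  · rintro ⟨j, hj⟩
    refine ⟨j, ?_⟩
    have h2 : ((aK p H - nP p H : ℤ) : ℚ) = ((p * j : ℤ) : ℚ) := by rw [hj]
    push_cast at h2
    linarith

section fixed

variable (p : ℕ) [hp : Fact p.Prime] (G : Type) [Group G] [Finite G]

theorem rec_a (n : ℕ) : (p : ℤ) * aK p (WrN p (GrpCat.of G) (n + 1)) =
    aK p (WrN p (GrpCat.of G) n) ^ p - aK p (WrN p (GrpCat.of G) n) := by
  have _i : Finite (GrpCat.of G) := inferInstanceAs (Finite G)
  have _i2 := wrN_finite p (GrpCat.of G) n
  exact aK_wr (p := p) (G := WrN p (GrpCat.of G) n)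

theorem rec_z (n : ℕ) : (p : ℤ) * (numDefectZero p (WrN p (GrpCat.of G) (n + 1)) : ℤ) =
    (numDefectZero p (WrN p (GrpCat.of G) n) : ℤ) ^ p -
      numDefectZero p (WrN p (GrpCat.of G) n) := by
  have _i : Finite (GrpCat.of G) := inferInstanceAs (Finite G)
  have _i2 := wrN_finite p (GrpCat.of G) n
  exact z_wr (p := p) (G := WrN p (GrpCat.of G) n)

theorem cong_n (n : ℕ) :
    (∃ j : ℤ, kr p (WrN p (GrpCat.of G) n) = (nP p (WrN p (GrpCat.of G) n) : ℚ) + p * j) ↔
      (p : ℤ) ∣ aK p (WrN p (GrpCat.of G) n) - numDefectZero p (WrN p (GrpCat.of G) n) := by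
  have _i : Finite (GrpCat.of G) := inferInstanceAs (Finite G)
  have _i2 := wrN_finite p (GrpCat.of G) n
  exact kr_cong p _

/-- **The Knörr–Robinson conjecture for one group modulo powers of `p`.** -/
theorem fixed_mod (m : ℕ) : (∃ j : ℤ, kr p G = (numDefectZero p G : ℚ) + p ^ m * j) ↔
    ∀ n < m, ∃ j : ℤ, kr p (WrN p (GrpCat.of G) n) =
      (nP p (WrN p (GrpCat.of G) n) : ℚ) + p * j := by
  have h := dvd_iff hp.out.ne_zero m (fun n => aK p (WrN p (GrpCat.of G) n))
    (fun n => (numDefectZero p (WrN p (GrpCat.of G) n) : ℤ)) (rec_a p G) (rec_z p G)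
  have h1 : (∀ n < m, ∃ j : ℤ, kr p (WrN p (GrpCat.of G) n) =
      (nP p (WrN p (GrpCat.of G) n) : ℚ) + p * j) ↔ ∀ n < m, (p : ℤ) ∣
        aK p (WrN p (GrpCat.of G) n) - numDefectZero p (WrN p (GrpCat.of G) n) :=
    forall_congr' fun n => imp_congr_right fun _ => cong_n p G n
  rw [h1, ← h, kr_eq]
  show _ ↔ (p : ℤ) ^ m ∣ aK p G - numDefectZero p G
  constructor
  · rintro ⟨j, hj⟩
    refine ⟨j, ?_⟩
    have h2 : (aK p G : ℚ) - numDefectZero p G = p ^ m * j := by rw [hj]; ring
    exact_mod_cast h2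
  · rintro ⟨j, hj⟩
    refine ⟨j, ?_⟩
    have h2 : ((aK p G - numDefectZero p G : ℤ) : ℚ) = ((p ^ m * j : ℤ) : ℚ) := by rw [hj]
    push_cast at h2
    linarith

/-- **The Knörr–Robinson conjecture for one group.** -/
theorem fixed : KRC p G ↔ ∀ n : ℕ, ∃ j : ℤ, kr p (WrN p (GrpCat.of G) n) =
      (nP p (WrN p (GrpCat.of G) n) : ℚ) + p * j := by
  have h := eq_iff hp.out.two_le (fun n => aK p (WrN p (GrpCat.of G) n))
    (fun n => (numDefectZero p (WrN p (GrpCat.of G) n) : ℤ)) (rec_a p G) (rec_z p G)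
  rw [krc_iff]
  refine Iff.trans h ?_
  exact forall_congr' fun n => (cong_n p G n).symm

end fixed

end Pool.Agent.N20.KRM
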