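import Pool.Agent.N20.KRM.Main
import Pool.Agent.N85.WM.Com

/-!
# The counting function in terms of commutators
-/

set_option autoImplicit false

open scoped Classical

noncomputable section

namespace Pool.Agent.N20.KRM

open Pool.Agent.N85.WM (PEl cc_count)

/-- the number of pairs `(x, y)` of elements of `G` such that the order of `[x, y]` is a power
of `p` -/
def comP (p : ℕ) (G : Type) [Group G] : ℕ :=
  Nat.card {q : G × G // ∃ k : ℕ, orderOf (q.1 * q.2 * q.1⁻¹ * q.2⁻¹) = p ^ k}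

theorem comP_eq (p : ℕ) [Fact p.Prime] (G : Type) [Group G] [Finite G] :
    Nat.card G * nP p G = comP p G := by
  have h1 := cc_count (H := G) (R := G) (fun y u => u * y) (fun _ u => PEl p u) (by
    intro a
    refine ⟨(MulAut.conj a).toEquiv, fun y r => ⟨Pool.Agent.N85.WM.PEl.conj a, ?_⟩⟩
    change a * r * a⁻¹ * (a * y * a⁻¹) = a * (r * y) * a⁻¹
    group)
  have h2 : nP p G = Nat.card {s : ConjClasses G × G // PEl p s.2 ∧
      IsConj (s.2 * s.1.out) s.1.out} :=
    (Pool.Agent.N85.WM.card_prod (fun (C : ConjClasses G) (u : G) => PEl p u ∧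
      IsConj (u * C.out) C.out)).symm
  rw [h2, h1]
  unfold comP
  refine Nat.card_congr
    { toFun := fun t => ⟨(t.1.2.1, t.1.1), ?_⟩
      invFun := fun q => ⟨(q.1.2, q.1.1, q.1.1 * q.1.2 * q.1.1⁻¹ * q.1.2⁻¹), q.2, by group⟩
      left_inv := ?_
      right_inv := fun q => rfl }
  · obtain ⟨⟨y, h, u⟩, h3, h4⟩ := t
    obtain ⟨k, hk⟩ := h3
    refine ⟨k, ?_⟩
    change orderOf (h * y * h⁻¹ * y⁻¹) = p ^ k
    have h5 : h * y * h⁻¹ = u * y := h4
    have h6 : h * y * h⁻¹ * y⁻¹ = u := by rw [h5]; group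
    rw [h6]
    exact hk
  · rintro ⟨⟨y, h, u⟩, h3, h4⟩
    apply Subtype.ext
    have h5 : h * y * h⁻¹ = u * y := h4
    have h6 : h * y * h⁻¹ * y⁻¹ = u := by rw [h5]; group
    change (y, h, h * y * h⁻¹ * y⁻¹) = (y, h, u)
    rw [h6]

/-- `|G|⁻¹` times the number of pairs with a commutator of `p`-power order -/
def com (p : ℕ) (G : Type) [Group G] : ℚ := (comP p G : ℚ) / (Nat.card G : ℚ)

theorem com_eq (p : ℕ) [Fact p.Prime] (G : Type) [Group G] [Finite G] :
    com p G = (nP p G : ℚ) := by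
  unfold com
  rw [← comP_eq, Nat.cast_mul]
  have : (Nat.card G : ℚ) ≠ 0 := by exact_mod_cast (Nat.card_pos (α := G)).ne'
  field_simp

end Pool.Agent.N20.KRM
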